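import Pool.Agent.Y811.PC.Stm

/-!
# Periodic points are repelling for large `c`; joint analyticity (tasks REPEL, ANA)
-/

set_option autoImplicit false

namespace Pool.Agent.Y888.PC

open Complex Metric Set Filter Topology Pool.Agent.H712R2 Pool.Agent.Y811.PC

theorem G_succ (d m : ℕ) (c z : ℂ) : G d (m + 1) c z = G d m c z ^ d + c := by
  rw [G, Function.iterate_succ_apply']
  rfl

theorem G_diff (d m : ℕ) (c : ℂ) : Differentiable ℂ (G d m c) := by
  induction m with
  | zero => exact differentiable_id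
  | succ m ih =>
    have : G d (m + 1) c = fun z => G d m c z ^ d + c := funext fun z => G_succ d m c z
    rw [this]
    exact (ih.pow d).add_const c

theorem mu_zero (d : ℕ) (c z : ℂ) : mu d 0 c z = 1 := by
  change deriv id z = 1
  exact deriv_id z

theorem mu_succ (d m : ℕ) (c z : ℂ) :
    mu d (m + 1) c z = d * G d m c z ^ (d - 1) * mu d m c z := by
  have : G d (m + 1) c = fun z => G d m c z ^ d + c := funext fun z => G_succ d m c z
  rw [mu, this]
  exact (((G_diff d m c z).hasDerivAt.pow d).add_const c).deriv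

theorem t_ANA : S_ANA := by
  intro d m c z
  have hG : ∀ m, AnalyticAt ℂ (fun p : ℂ × ℂ => G d m p.1 p.2) (c, z) := by
    intro m
    induction m with
    | zero => exact analyticAt_snd
    | succ m ih =>
      have : (fun p : ℂ × ℂ => G d (m + 1) p.1 p.2) = fun p => G d m p.1 p.2 ^ d + p.1 :=
        funext fun p => G_succ d m p.1 p.2
      rw [this]
      exact (ih.pow d).add analyticAt_fst
  refine ⟨hG m, ?_⟩
  induction m with
  | zero =>
    have : (fun p : ℂ × ℂ => mu d 0 p.1 p.2) = fun _ => 1 := funext fun p => mu_zero d p.1 p.2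
    rw [this]
    exact analyticAt_const
  | succ m ih =>
    have : (fun p : ℂ × ℂ => mu d (m + 1) p.1 p.2) =
        fun p => d * G d m p.1 p.2 ^ (d - 1) * mu d m p.1 p.2 :=
      funext fun p => mu_succ d m p.1 p.2
    rw [this]
    exact ((analyticAt_const).mul ((hG m).pow (d - 1))).mul ih

theorem t_REPEL : S_REPEL := by
  intro d m hd hm c z hc hz
  obtain ⟨i0, hi0, hmax⟩ := Finset.exists_max_image (Finset.range m) (fun i => ‖G d i c z‖)
    ⟨0, Finset.mem_range.2 hm⟩
  rw [Finset.mem_range] at hi0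
  set R := ‖G d i0 c z‖ with hR
  have hle : ∀ i, i ≤ m → ‖G d i c z‖ ≤ R := by
    intro i hi
    rcases Nat.lt_or_ge i m with h | h
    · exact hmax i (Finset.mem_range.2 h)
    · have h1 : i = m := le_antisymm hi h
      rw [h1, hz]
      exact hmax 0 (Finset.mem_range.2 hm)
  have hup : R ^ d ≤ R + ‖c‖ := by
    have h1 : G d i0 c z ^ d = G d (i0 + 1) c z - c := by rw [G_succ]; ring
    rw [hR, ← norm_pow, h1]
    exact (norm_sub_le _ _).trans (add_le_add_left (hle _ hi0) _)
  have hRc : R ≤ ‖c‖ / 2 := by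
    by_contra h
    push Not at h
    have h1 : R ^ 2 ≤ R ^ d := pow_le_pow_right₀ (by linarith) hd
    nlinarith
  have hlow : ∀ i, i < m → 1 < ‖G d i c z‖ := by
    intro i hi
    have h1 : G d i c z ^ d = G d (i + 1) c z - c := by rw [G_succ]; ring
    have h2 : ‖c‖ - ‖G d (i + 1) c z‖ ≤ ‖G d i c z‖ ^ d := by
      rw [← norm_pow, h1, norm_sub_rev]
      exact norm_sub_norm_le _ _
    have h3 := hle (i + 1) hi
    by_contra h4
    push Not at h4
    have h5 : ‖G d i c z‖ ^ d ≤ 1 := pow_le_one₀ (norm_nonneg _) h4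
    linarith
  have key : ∀ k, k ≤ m → 2 ^ k ≤ ‖mu d k c z‖ := by
    intro k hk
    induction k with
    | zero => rw [mu_zero]; simp
    | succ k ih =>
      have h1 := ih (by omega)
      have h2 := hlow k (by omega)
      rw [mu_succ, norm_mul, norm_mul, norm_pow, Complex.norm_natCast]
      have h3 : (2 : ℝ) ≤ d := by exact_mod_cast hd
      have h4 : 1 ≤ ‖G d k c z‖ ^ (d - 1) := one_le_pow₀ h2.le
      have h5 : (2 : ℝ) ≤ d * ‖G d k c z‖ ^ (d - 1) := by nlinarith
      rw [pow_succ, mul_comm ((2 : ℝ) ^ k)]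
      exact mul_le_mul h5 h1 (by positivity) (by positivity)
  have h6 := key m le_rfl
  have h7 : (1 : ℝ) < 2 ^ m := one_lt_pow₀ (by norm_num) (by omega)
  linarith

end Pool.Agent.Y888.PC
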